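import Pool.Agent.V11325.IqG

/-!
# Interference queueing networks are unstable above the critical rate (MP_87e9f0_pr)
-/

open MeasureTheory ProbabilityTheory

namespace Pool.Agent.Results.MP_87e9f0_pr.Unstable

open Pool.Agent.V11325.Iq

/-- Interference sequences on `ℤ^d`: finitely supported (by type), nonnegative, symmetric, with
`a_0 = 1` and irreducible. -/
structure IsInterference {d : ℕ} (a : Site d →₀ ℝ) : Prop where
  zero : a 0 = 1
  symm : ∀ i, a (-i) = a i
  nonneg : ∀ i, 0 ≤ a i
  irred : ∀ z : Site d, ∃ l : List (Site d), l ≠ [] ∧ (∀ i ∈ l, 0 < a i) ∧ l.sum = z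

/-- A realisation of the interference queueing network with arrival rate `lam`, started empty, by
its graphical construction: the independent random inputs `drv` (`Inputs`), and for every site `i`
and every `n` the information `acc ω i n` whether the `n`-th potential departure of site `i` is
accepted, which obeys the acceptance rule (`Consistent`) almost surely. -/
structure IsNetwork {d : ℕ} (a : Site d →₀ ℝ) (lam : ℝ) {Ω : Type} [MeasurableSpace Ω]
    (P : Measure Ω) (drv : Idx d → Ω → ℝ) (acc : Ω → Site d → ℕ → Prop) : Prop where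
  inputs : Inputs lam P drv
  consistent : ∀ᵐ ω ∂P, Consistent a (arrT drv ω) (depT drv ω) (mkU drv ω) (acc ω)

/-- **Instability above the critical rate.** In every dimension `d ≥ 1`, for every interference
sequence `a` and every arrival rate `lam > 1 / ∑_j a_j`, the interference queueing network has a
realisation, and no realisation is stable: the vector of queue lengths, started empty, does not
converge in distribution to an almost surely finite random vector. Moreover with positive
probability the queue at the origin grows at least linearly. -/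
theorem result (d : ℕ) (_hd : 1 ≤ d) (a : Site d →₀ ℝ) (ha : IsInterference a) (lam : ℝ)
    (hlam : 1 / (∑ j ∈ a.support, a j) < lam) :
    (∃ (Ω : Type) (_ : MeasurableSpace Ω) (P : Measure Ω) (drv : Idx d → Ω → ℝ)
      (acc : Ω → Site d → ℕ → Prop), IsProbabilityMeasure P ∧ IsNetwork a lam P drv acc) ∧
    ∀ (Ω : Type) [MeasurableSpace Ω] (P : Measure Ω) [IsProbabilityMeasure P]
      (drv : Idx d → Ω → ℝ) (acc : Ω → Site d → ℕ → Prop), IsNetwork a lam P drv acc →
      ¬ Stable P (fun i t ω => qlen (arrT drv ω) (depT drv ω) (acc ω) i t) ∧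
      ∃ G : Set Ω, MeasurableSet G ∧ 0 < P G ∧ ∃ c : ℝ, 0 < c ∧ ∀ ω ∈ G, ∀ t, 1 ≤ t →
        c * t ≤ (qlen (arrT drv ω) (depT drv ω) (acc ω) 0 t : ℝ) := by
  have hlam0 : 0 < lam := by
    have h1 := mass_ge_one ha.zero ha.nonneg
    unfold mass at h1
    refine lt_trans ?_ hlam
    positivity
  refine ⟨?_, ?_⟩
  · obtain ⟨Ω, mΩ, P, drv, acc, hP, hI, hacc⟩ := exists_network a hlam0
    exact ⟨Ω, mΩ, P, drv, acc, hP, ⟨hI, hacc⟩⟩
  · intro Ω _ P _ drv acc h
    exact ⟨not_stable ha.zero ha.nonneg ha.symm hlam h.inputs h.consistent,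
      grows ha.zero ha.nonneg ha.symm hlam h.inputs h.consistent⟩

end Pool.Agent.Results.MP_87e9f0_pr.Unstable
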